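import Pool.Agent.Helper63.Sey2.Goals

/-! Packet CYC of project SEY2: a cyclic order without consecutive bad pairs. -/

namespace Pool.Agent.Helper8.Sey2

open Pool.Agent.Helper63.Sey2

theorem card_fibre {N : ℕ} [NeZero N] (P : ZMod N → Prop) [DecidablePred P]
    (e : Equiv.Perm (ZMod N)) :
    (Finset.univ.filter fun j : ZMod N => P (e j)).card = Nat.card {y // P y} := by
  classical
  rw [Nat.card_eq_fintype_card, Fintype.card_subtype]
  apply Finset.card_bij (fun j _ => e j)
  · intro j hj
    simpa using hj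
  · intro j _ j' _ h
    exact e.injective h
  · intro y hy
    refine ⟨e.symm y, ?_, ?_⟩
    · simpa using hy
    · simp

theorem goalCYC : GoalCYC := by
  intro N _ B hsym hdeg
  classical
  obtain ⟨π, -, hπ⟩ := Finset.exists_min_image (Finset.univ : Finset (Equiv.Perm (ZMod N)))
    (fun π => (Finset.univ.filter fun g : ZMod N => B (π g) (π (g + 1))).card)
    ⟨1, Finset.mem_univ _⟩
  refine ⟨π, fun i hi => ?_⟩
  have hN : 8 ≤ N := by
    have h1 := hdeg (π i)
    have h2 : 0 < Nat.card {y // B (π i) y} := by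
      have : Nonempty {y // B (π i) y} := ⟨⟨_, hi⟩⟩
      exact Nat.card_pos
    omega
  have h10 : (1 : ZMod N) ≠ 0 := by
    have : Fact (1 < N) := ⟨by omega⟩
    exact one_ne_zero
  have hsucc : ∀ g : ZMod N, g + 1 ≠ g := by
    intro g h
    apply h10
    have h3 : g + 1 = g + 0 := by rw [h, add_zero]
    exact add_left_cancel h3
  let D : Finset (ZMod N) := ((((({i, i + 1, i + 1 + 1} : Finset (ZMod N)) ∪
    (Finset.univ.filter fun j : ZMod N => B (π i) (π j))) ∪
    (Finset.univ.filter fun j : ZMod N => B (π (i + 1 + 1)) (π j))) ∪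
    (Finset.univ.filter fun j : ZMod N =>
      B (π (i + 1)) (((Equiv.subRight (1 : ZMod N)).trans π) j))) ∪
    (Finset.univ.filter fun j : ZMod N =>
      B (π (i + 1)) (((Equiv.addRight (1 : ZMod N)).trans π) j)))
  have hD : D.card < Fintype.card (ZMod N) := by
    rw [ZMod.card]
    have c0 : ({i, i + 1, i + 1 + 1} : Finset (ZMod N)).card ≤ 3 := Finset.card_le_three
    have c1 := card_fibre (fun y => B (π i) y) π
    have c2 := card_fibre (fun y => B (π (i + 1 + 1)) y) π
    have c3 := card_fibre (fun y => B (π (i + 1)) y) ((Equiv.subRight (1 : ZMod N)).trans π)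
    have c4 := card_fibre (fun y => B (π (i + 1)) y) ((Equiv.addRight (1 : ZMod N)).trans π)
    have d1 := hdeg (π i)
    have d2 := hdeg (π (i + 1 + 1))
    have d3 := hdeg (π (i + 1))
    have e4 : D.card ≤ _ := Finset.card_union_le _ _
    have e3 := Finset.card_union_le ((({i, i + 1, i + 1 + 1} : Finset (ZMod N)) ∪
      (Finset.univ.filter fun j : ZMod N => B (π i) (π j))) ∪
      (Finset.univ.filter fun j : ZMod N => B (π (i + 1 + 1)) (π j)))
      (Finset.univ.filter fun j : ZMod N =>
        B (π (i + 1)) (((Equiv.subRight (1 : ZMod N)).trans π) j))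
    have e2 := Finset.card_union_le (({i, i + 1, i + 1 + 1} : Finset (ZMod N)) ∪
      (Finset.univ.filter fun j : ZMod N => B (π i) (π j)))
      (Finset.univ.filter fun j : ZMod N => B (π (i + 1 + 1)) (π j))
    have e1 := Finset.card_union_le ({i, i + 1, i + 1 + 1} : Finset (ZMod N))
      (Finset.univ.filter fun j : ZMod N => B (π i) (π j))
    omega
  obtain ⟨j, hj⟩ : ∃ j, j ∉ D := by
    by_contra hcon
    push Not at hcon
    have : D = Finset.univ := Finset.eq_univ_iff_forall.2 hcon
    rw [this, Finset.card_univ] at hD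
    exact lt_irrefl _ hD
  have hb2 : ¬ B (π (i + 1)) (π (j + 1)) := fun h =>
    hj (Finset.mem_union_right _ (Finset.mem_filter.2 ⟨Finset.mem_univ _, h⟩))
  have hb1 : ¬ B (π (i + 1)) (π (j - 1)) := fun h =>
    hj (Finset.mem_union_left _ (Finset.mem_union_right _
      (Finset.mem_filter.2 ⟨Finset.mem_univ _, h⟩)))
  have hc : ¬ B (π (i + 1 + 1)) (π j) := fun h =>
    hj (Finset.mem_union_left _ (Finset.mem_union_left _ (Finset.mem_union_right _
      (Finset.mem_filter.2 ⟨Finset.mem_univ _, h⟩))))
  have ha : ¬ B (π i) (π j) := fun h =>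
    hj (Finset.mem_union_left _ (Finset.mem_union_left _ (Finset.mem_union_left _
      (Finset.mem_union_right _ (Finset.mem_filter.2 ⟨Finset.mem_univ _, h⟩)))))
  have h3 : j ∉ ({i, i + 1, i + 1 + 1} : Finset (ZMod N)) := fun h =>
    hj (Finset.mem_union_left _ (Finset.mem_union_left _ (Finset.mem_union_left _
      (Finset.mem_union_left _ h))))
  simp only [Finset.mem_insert, Finset.mem_singleton, not_or] at h3
  obtain ⟨hji, hj1, hj2⟩ := h3
  have key := hπ ((Equiv.swap (i + 1) j).trans π) (Finset.mem_univ _)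
  refine absurd key (not_le.2 ?_)
  have hsub : (Finset.univ.filter fun g : ZMod N =>
      B (((Equiv.swap (i + 1) j).trans π) g) (((Equiv.swap (i + 1) j).trans π) (g + 1))) ⊆
      (Finset.univ.filter fun g : ZMod N => B (π g) (π (g + 1))).erase i := by
    intro g hg0
    have hg : B (π (Equiv.swap (i + 1) j g)) (π (Equiv.swap (i + 1) j (g + 1))) :=
      (Finset.mem_filter.1 hg0).2
    clear hg0
    rw [Finset.mem_erase]
    simp only [Finset.mem_filter, Finset.mem_univ, true_and]
    by_cases g1 : g = i
    · exfalso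
      subst g1
      rw [Equiv.swap_apply_of_ne_of_ne (hsucc g).symm (Ne.symm hji), Equiv.swap_apply_left] at hg
      exact ha hg
    refine ⟨g1, ?_⟩
    by_cases g2 : g = i + 1
    · exfalso
      subst g2
      rw [Equiv.swap_apply_left,
        Equiv.swap_apply_of_ne_of_ne (hsucc _) (Ne.symm hj2)] at hg
      exact hc (hsym _ _ hg)
    by_cases g3 : g = j
    · exfalso
      subst g3
      rw [Equiv.swap_apply_right,
        Equiv.swap_apply_of_ne_of_ne (fun h => hji (add_right_cancel h)) (hsucc _)] at hg
      exact hb2 hg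
    by_cases g4 : g + 1 = j
    · exfalso
      subst g4
      rw [Equiv.swap_apply_right, Equiv.swap_apply_of_ne_of_ne g2 g3] at hg
      have h5 : g + 1 - 1 = g := by ring
      rw [h5] at hb1
      exact hb1 (hsym _ _ hg)
    have g5 : g + 1 ≠ i + 1 := fun h => g1 (add_right_cancel h)
    rw [Equiv.swap_apply_of_ne_of_ne g2 g3, Equiv.swap_apply_of_ne_of_ne g5 g4] at hg
    exact hg
  calc _ ≤ ((Finset.univ.filter fun g : ZMod N => B (π g) (π (g + 1))).erase i).card :=
        Finset.card_le_card hsub
    _ < (Finset.univ.filter fun g : ZMod N => B (π g) (π (g + 1))).card := by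
        apply Finset.card_erase_lt_of_mem
        simp only [Finset.mem_filter, Finset.mem_univ, true_and]
        exact hi

end Pool.Agent.Helper8.Sey2
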